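import Pool.Agent.N411.HYO.Types

set_option autoImplicit false
set_option linter.unusedVariables false

/-! The matchings which are moved to the labels of the first copy. -/

namespace Pool.Agent.N411.HYO

/-! ### large `p` -/

def zA (h : ℕ) : ℕ := if h % 2 = 1 then 2 * h else h

def rA (h i : ℕ) : ℕ := if i < zA h then i else i - 1

def eA (h i : ℕ) : ℤ :=
  if i = zA h then 0 else if rA h i % 2 = 0 then ((rA h i / 2 + 1 : ℕ) : ℤ)
    else -((rA h i / 2 + 1 : ℕ) : ℤ)

theorem case_A (h p : ℕ) (hh : 1 ≤ h) (hp : h + 1 ≤ p) : Good h p := by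
  refine near_perfect h p (h + 1) (by omega) (by omega) (eA h) ?_ ?_
    (fun i j => if i ≤ h then h + 1 else h) ?_ ?_
  · intro i hi
    unfold eA rA zA
    split_ifs <;> omega
  · intro i j hi hj he
    unfold eA rA zA at he
    split_ifs at he <;> omega
  · intro i j hi hj hij he
    have h1 : i ≤ h ↔ j ≤ h := by
      unfold eA rA zA at he
      split_ifs at he <;> omega
    by_cases h2 : i ≤ h
    · rw [if_pos h2, if_pos (h1.1 h2)]
    · rw [if_neg h2, if_neg (fun h3 => h2 (h1.2 h3))]
  · intro i j hi hj hij he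
    by_cases h2 : i ≤ h
    · rw [if_pos h2]
      refine ⟨by omega, ?_, ?_⟩
      · unfold pos
        split_ifs <;> omega
      · intro k hk hki
        unfold cyc
        split_ifs <;> omega
    · rw [if_neg h2]
      refine ⟨by omega, ?_, ?_⟩
      · unfold pos
        split_ifs <;> omega
      · intro k hk hki
        unfold cyc
        split_ifs <;> omega

/-! ### `p` odd -/

def eB (h p i : ℕ) : ℤ :=
  if i + p ≤ h then ((i + 1 : ℕ) : ℤ) else if i + p = h + 1 then 0 else
    if i < h + p then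
      (if (i + p - (h + 2)) % 2 = 0 then ((h - p + 2 + (i + p - (h + 2)) / 2 : ℕ) : ℤ)
        else -((h - p + 2 + (i + p - (h + 2)) / 2 : ℕ) : ℤ))
    else -((i + 1 - h - p : ℕ) : ℤ)

def lamB (h p i j : ℕ) : ℕ :=
  if i + p ≤ h then 2 * i + p else if j + p ≤ h then 2 * j + p else if i ≤ h then h + 1 else h

theorem eB_cases {h p i j : ℕ} (hp : p % 2 = 1) (hph : p ≤ h) (hi : i ≤ 2 * h) (hj : j ≤ 2 * h)
    (hij : i ≠ j) (he : eB h p i + eB h p j = 0) :
    (i + p ≤ h ∧ j = i + h + p) ∨ (j + p ≤ h ∧ i = j + h + p) ∨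
      (h + 2 ≤ i + p ∧ i ≤ h ∧ h + 2 ≤ j + p ∧ j ≤ h) ∨
      (h < i ∧ i < h + p ∧ h < j ∧ j < h + p) := by
  unfold eB at he
  split_ifs at he <;> omega

theorem case_B (h p : ℕ) (hp : p % 2 = 1) (hph : p ≤ h) : Good h p := by
  refine near_perfect h p (h + 1) (by omega) (by omega) (eB h p) ?_ ?_ (lamB h p) ?_ ?_
  · intro i hi
    unfold eB
    split_ifs <;> omega
  · intro i j hi hj he
    unfold eB at he
    split_ifs at he <;> omega
  · intro i j hi hj hij he
    have := eB_cases hp hph hi hj hij he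
    unfold lamB
    split_ifs <;> omega
  · intro i j hi hj hij he
    have := eB_cases hp hph hi hj hij he
    refine ⟨?_, ?_, ?_⟩
    · unfold lamB
      split_ifs <;> omega
    · unfold lamB pos
      split_ifs <;> omega
    · intro k hk hki
      unfold lamB cyc
      split_ifs <;> omega

/-! ### `p = 2 k + 2`, `k ≥ 1` -/

def eC (h k i : ℕ) : ℤ :=
  if i + (2 * k + 2) ≤ h then ((i + 1 : ℕ) : ℤ) else if i + 2 * k + 1 = h then 0 else
    if i < h then
      (if (i + 2 * k - h) % 2 = 0 then (h : ℤ) - 1 - ((i + 2 * k - h) / 2 : ℕ)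
        else -((h : ℤ) - 1 - ((i + 2 * k - h) / 2 : ℕ)))
    else if i = h then (h : ℤ) else if i ≤ h + 2 * k then
      (if (i - h - 1) % 2 = 0 then (h : ℤ) - 1 - k - ((i - h - 1) / 2 : ℕ)
        else -((h : ℤ) - 1 - k - ((i - h - 1) / 2 : ℕ)))
    else if i = h + 2 * k + 1 then -(h : ℤ) else -((i : ℤ) - h - (2 * k + 2) + 1)

def lamC (h k i j : ℕ) : ℕ :=
  if (i = h ∧ j + 2 * k = h + 1) ∨ (i + 2 * k = h + 1 ∧ j = h) then h + 2 else
    if i + (2 * k + 2) ≤ h then 2 * i + (2 * k + 2) else
      if j + (2 * k + 2) ≤ h then 2 * j + (2 * k + 2) else if i ≤ h then h + 1 else h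

theorem eC_cases {h k i j : ℕ} (hk : 1 ≤ k) (hph : 2 * k + 2 ≤ h) (hi : i ≤ 2 * h)
    (hj : j ≤ 2 * h) (hij : i ≠ j) (he : eC h k i + eC h k j = 0) (hix : i ≠ h + 2 * k + 1)
    (hjx : j ≠ h + 2 * k + 1) :
    (i + (2 * k + 2) ≤ h ∧ j = i + h + (2 * k + 2)) ∨
      (j + (2 * k + 2) ≤ h ∧ i = j + h + (2 * k + 2)) ∨
      (h ≤ i + 2 * k ∧ i < h ∧ h ≤ j + 2 * k ∧ j < h) ∨
      (h < i ∧ i ≤ h + 2 * k ∧ h < j ∧ j ≤ h + 2 * k) := by
  unfold eC at he
  split_ifs at he <;> omega

theorem eC_bound {h k i : ℕ} (hk : 1 ≤ k) (hph : 2 * k + 2 ≤ h) (hi : i ≤ 2 * h) :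
    -(h : ℤ) ≤ eC h k i ∧ eC h k i ≤ h := by
  unfold eC
  split_ifs <;> omega

theorem eC_inj {h k i j : ℕ} (hk : 1 ≤ k) (hph : 2 * k + 2 ≤ h) (hi : i ≤ 2 * h)
    (hj : j ≤ 2 * h) (he : eC h k i = eC h k j) : i = j := by
  unfold eC at he
  split_ifs at he <;> omega

theorem case_C (h k : ℕ) (hk : 1 ≤ k) (hph : 2 * k + 2 ≤ h) : Good h (2 * k + 2) := by
  refine path_case h (2 * k + 2) (h + 1) (by omega) (by omega) (by omega) (eC h k)
    (fun i hi => eC_bound hk hph hi) (fun i j hi hj he => eC_inj hk hph hi hj he) (lamC h k)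
    (h + 2 * k + 1) h (h + 1 - 2 * k) ?_ ?_ ?_ (by omega) (by omega) (by omega) ?_ ?_ ?_ ?_ ?_ ?_
  · unfold eC
    split_ifs <;> omega
  · unfold eC
    split_ifs <;> omega
  · unfold eC
    split_ifs <;> omega
  · intro i j hi hj hij he hix hjx
    have := eC_cases hk hph hi hj hij he hix hjx
    unfold lamC
    split_ifs <;> omega
  · unfold lamC
    split_ifs <;> omega
  · have hl : lamC h k h (h + 1 - 2 * k) = h + 2 := by
      unfold lamC
      rw [if_pos (Or.inl ⟨rfl, by omega⟩)]
    rw [hl]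
    refine ⟨by omega, ?_, ?_⟩
    · unfold pos
      split_ifs <;> omega
    · intro i hi hne
      unfold cyc
      split_ifs <;> omega
  · have hl : lamC h k h (h + 1 - 2 * k) = h + 2 := by
      unfold lamC
      rw [if_pos (Or.inl ⟨rfl, by omega⟩)]
    rw [hl]
    refine ⟨by omega, ?_, ?_⟩
    · unfold pos
      split_ifs <;> omega
    · intro i hi hne
      unfold cyc
      split_ifs <;> omega
  · intro i j hi hj hij he hix hjx
    have := eC_cases hk hph hi hj hij he hix hjx
    have hl : lamC h k i j = if i + (2 * k + 2) ≤ h then 2 * i + (2 * k + 2) else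
        if j + (2 * k + 2) ≤ h then 2 * j + (2 * k + 2) else if i ≤ h then h + 1 else h := by
      unfold lamC
      rw [if_neg (by omega)]
    rw [hl]
    refine ⟨?_, ?_, ?_⟩
    · split_ifs <;> omega
    · unfold pos
      split_ifs <;> omega
    · intro k' hk' hki
      unfold cyc
      split_ifs <;> omega
  · intro j hj hjy he
    have hwj : h + 1 - 2 * k ≠ j := by
      rintro rfl
      have hw : eC h k (h + 1 - 2 * k) = 1 - h := by
        unfold eC
        split_ifs <;> omega
      omega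
    have hjx : j ≠ h + 2 * k + 1 := by
      rintro rfl
      have hw : eC h k (h + 1 - 2 * k) = 1 - h := by
        unfold eC
        split_ifs <;> omega
      have hx : eC h k (h + 2 * k + 1) = -h := by
        unfold eC
        split_ifs <;> omega
      omega
    have := eC_cases hk hph (by omega) hj hwj he (by omega) hjx
    have hl : lamC h k (h + 1 - 2 * k) h = h + 2 := by
      unfold lamC
      rw [if_pos (Or.inr ⟨by omega, rfl⟩)]
    rw [hl]
    unfold lamC
    split_ifs <;> omega

/-! ### `p = 2` -/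

def eD (h i : ℕ) : ℤ :=
  if i + 4 ≤ h then (i : ℤ) + 1 else if i + 3 = h then (h : ℤ) - 1 else
    if i + 2 = h then (h : ℤ) - 2 else if i + 1 = h then (h : ℤ) else if i = h then -(h : ℤ) else
      if i = h + 1 then 0 else if i + 2 ≤ 2 * h then (h : ℤ) + 1 - i else
        if i + 1 = 2 * h then 1 - (h : ℤ) else 2 - (h : ℤ)

def lamD (h i j : ℕ) : ℕ :=
  if (i + 1 = h ∧ j + 1 = 2 * h) ∨ (i + 1 = 2 * h ∧ j + 1 = h) then 2 * h else
    if i + 2 ≤ h then 2 * i + 2 else 2 * j + 2

theorem eD_cases {h i j : ℕ} (hh : 3 ≤ h) (hi : i ≤ 2 * h) (hj : j ≤ 2 * h) (hij : i ≠ j)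
    (he : eD h i + eD h j = 0) (hix : i ≠ h) (hjx : j ≠ h) :
    (i + 2 ≤ h ∧ j = i + h + 2) ∨ (j + 2 ≤ h ∧ i = j + h + 2) := by
  unfold eD at he
  split_ifs at he <;> omega

theorem case_D (h : ℕ) (hh : 3 ≤ h) : Good h 2 := by
  refine path_case h 2 (2 * h) (by omega) (by omega) (by omega) (eD h) ?_ ?_ (lamD h)
    h (h - 1) (2 * h - 1) ?_ ?_ ?_ (by omega) (by omega) (by omega) ?_ ?_ ?_ ?_ ?_ ?_
  · intro i hi
    unfold eD
    split_ifs <;> omega
  · intro i j hi hj he
    unfold eD at he
    split_ifs at he <;> omega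
  · unfold eD
    split_ifs <;> omega
  · unfold eD
    split_ifs <;> omega
  · unfold eD
    split_ifs <;> omega
  · intro i j hi hj hij he hix hjx
    have := eD_cases hh hi hj hij he hix hjx
    unfold lamD
    split_ifs <;> omega
  · unfold lamD
    split_ifs <;> omega
  · have hl : lamD h (h - 1) (2 * h - 1) = 2 * h := by
      unfold lamD
      rw [if_pos (Or.inl ⟨by omega, by omega⟩)]
    rw [hl]
    refine ⟨by omega, ?_, ?_⟩
    · unfold pos
      split_ifs <;> omega
    · intro i hi hne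
      unfold cyc
      split_ifs <;> omega
  · have hl : lamD h (h - 1) (2 * h - 1) = 2 * h := by
      unfold lamD
      rw [if_pos (Or.inl ⟨by omega, by omega⟩)]
    rw [hl]
    refine ⟨by omega, ?_, ?_⟩
    · unfold pos
      split_ifs <;> omega
    · intro i hi hne
      unfold cyc
      split_ifs <;> omega
  · intro i j hi hj hij he hix hjx
    have := eD_cases hh hi hj hij he hix hjx
    have hl : lamD h i j = if i + 2 ≤ h then 2 * i + 2 else 2 * j + 2 := by
      unfold lamD
      rw [if_neg (by omega)]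
    rw [hl]
    refine ⟨?_, ?_, ?_⟩
    · split_ifs <;> omega
    · unfold pos
      split_ifs <;> omega
    · intro k' hk' hki
      unfold cyc
      split_ifs <;> omega
  · intro j hj hjy he
    have hw : eD h (2 * h - 1) = 1 - h := by
      unfold eD
      split_ifs <;> omega
    have hwj : 2 * h - 1 ≠ j := by
      rintro rfl
      omega
    have hjx : j ≠ h := by
      rintro rfl
      have hx : eD j j = -j := by
        unfold eD
        split_ifs <;> omega
      omega
    have := eD_cases hh (by omega) hj hwj he (by omega) hjx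
    have hl : lamD h (2 * h - 1) (h - 1) = 2 * h := by
      unfold lamD
      rw [if_pos (Or.inr ⟨by omega, by omega⟩)]
    rw [hl]
    unfold lamD
    split_ifs <;> omega

def eD2 (i : ℕ) : ℤ :=
  if i = 0 then 1 else if i = 1 then -2 else if i = 2 then 0 else if i = 3 then 2 else -1

theorem case_D2 : Good 2 2 := by
  refine near_perfect 2 2 4 (by omega) (by omega) eD2 ?_ ?_
    (fun i j => if i = 0 ∨ j = 0 then 2 else 4) ?_ ?_
  · intro i hi
    unfold eD2
    split_ifs <;> omega
  · intro i j hi hj he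
    unfold eD2 at he
    split_ifs at he <;> omega
  · intro i j hi hj hij he
    simp only [or_comm]
  · intro i j hi hj hij he
    unfold eD2 at he
    refine ⟨?_, ?_, ?_⟩
    · split_ifs <;> omega
    · unfold pos
      split_ifs at he <;> split_ifs <;> omega
    · intro k hk hki
      unfold cyc
      split_ifs at he <;> split_ifs <;> omega

theorem good (h p : ℕ) (hh : 1 ≤ h) (hp : 1 ≤ p) : Good h p := by
  rcases Nat.lt_or_ge h p with h1 | h1
  · exact case_A h p hh (by omega)
  · rcases Nat.mod_two_eq_zero_or_one p with h2 | h2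
    · obtain ⟨k, hk⟩ : ∃ k, p = 2 * k + 2 := ⟨p / 2 - 1, by omega⟩
      rcases Nat.eq_zero_or_pos k with h3 | h3
      · subst h3
        subst hk
        rcases Nat.lt_or_ge h 3 with h4 | h4
        · have : h = 2 := by omega
          subst this
          exact case_D2
        · exact case_D h h4
      · subst hk
        exact case_C h k h3 h1
    · exact case_B h p h2 h1

end Pool.Agent.N411.HYO
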