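import Pool.Agent.N411.HYO.Cases
import Pool.Agent.R661.HY.Types
import Pool.Agent.H238R2.HY.Struct

set_option autoImplicit false

/-! From labellings of the types to labellings of graphs; line graphs. -/

namespace Pool.Agent.N411.HYO

open Finset Pool.Agent.R661.HY

/-- a (p,1)-total labelling with the labels `0, …, N - 1` -/
def Lab {V : Type} (G : SimpleGraph V) (p N : ℕ) : Prop :=
  ∃ (fV : V → ℕ) (fE : Sym2 V → ℕ),
    (∀ v, fV v < N) ∧ (∀ e ∈ G.edgeSet, fE e < N) ∧
    (∀ u v, G.Adj u v → fV u ≠ fV v) ∧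
    (∀ u v w, G.Adj u v → G.Adj u w → v ≠ w → fE s(u, v) ≠ fE s(u, w)) ∧
    (∀ u v, G.Adj u v → (p : ℤ) ≤ |(fV u : ℤ) - (fE s(u, v) : ℤ)|)

/-- colours of the edges between two types (König's theorem) -/
theorem pair_cols {V : Type} [Fintype V] (G : SimpleGraph V) (t : V → ℕ) (w : ℕ)
    (hR : ∀ u v, G.Adj u v → t u ≠ t v)
    (hw : ∀ v y, {u | G.Adj v u ∧ t u = y}.ncard ≤ w) :
    ∃ cc : V → V → ℕ, (∀ u v, cc u v = cc v u) ∧ (∀ u v, G.Adj u v → cc u v < w) ∧
      ∀ u v v', G.Adj u v → G.Adj u v' → t v = t v' → cc u v = cc u v' → v = v' := by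
  classical
  -- the edges, oriented from the smaller to the larger type
  let E : Type := {q : V × V // G.Adj q.1 q.2 ∧ t q.1 < t q.2}
  have hfib : ∀ (v : V) (y : ℕ), ({u | G.Adj v u ∧ t u = y} : Set V).Finite :=
    fun v y => Set.toFinite _
  obtain ⟨M, hM⟩ : ∃ M, ∀ v, t v < M := by
    obtain ⟨M, hM⟩ := (Set.finite_range t).bddAbove
    exact ⟨M + 1, fun v => Nat.lt_succ_of_le (hM ⟨v, rfl⟩)⟩
  let sE : E → V × Fin M := fun e => (e.1.1, ⟨t e.1.2, hM _⟩)
  let tE : E → V × Fin M := fun e => (e.1.2, ⟨t e.1.1, hM _⟩)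
  obtain ⟨c, hc1, hc2⟩ := koenig_le sE tE w (by
    rintro ⟨v, y⟩
    refine le_trans ?_ (hw v y)
    rw [← Nat.card_coe_set_eq]
    refine Nat.card_le_card_of_injective
      (fun e : {e : E // sE e = (v, y)} => (⟨e.1.1.2, by
        have h := e.2
        simp only [sE, Prod.mk.injEq, Fin.ext_iff] at h
        have h4 := e.1.2.1
        rw [h.1] at h4
        exact ⟨h4, h.2⟩⟩ : {u | G.Adj v u ∧ t u = (y : ℕ)})) ?_
    intro e e' he
    have h := e.2
    have h' := e'.2
    simp only [sE, Prod.mk.injEq] at h h'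
    have h5 : e.1.1.2 = e'.1.1.2 := congrArg Subtype.val he
    apply Subtype.ext
    apply Subtype.ext
    exact Prod.ext (h.1.trans h'.1.symm) h5) (by
    rintro ⟨v, y⟩
    refine le_trans ?_ (hw v y)
    rw [← Nat.card_coe_set_eq]
    refine Nat.card_le_card_of_injective
      (fun e : {e : E // tE e = (v, y)} => (⟨e.1.1.1, by
        have h := e.2
        simp only [tE, Prod.mk.injEq, Fin.ext_iff] at h
        have h4 := e.1.2.1
        rw [h.1] at h4
        exact ⟨h4.symm, h.2⟩⟩ : {u | G.Adj v u ∧ t u = (y : ℕ)})) ?_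
    intro e e' he
    have h := e.2
    have h' := e'.2
    simp only [tE, Prod.mk.injEq] at h h'
    have h5 : e.1.1.1 = e'.1.1.1 := congrArg Subtype.val he
    apply Subtype.ext
    apply Subtype.ext
    exact Prod.ext h5 (h.1.trans h'.1.symm))
  -- the colours inside the blocks
  let cc : V → V → ℕ := fun u v =>
    if h : G.Adj u v ∧ t u < t v then (c ⟨(u, v), h⟩ : ℕ) else
      if h : G.Adj v u ∧ t v < t u then (c ⟨(v, u), h⟩ : ℕ) else 0
  refine ⟨cc, ?_, ?_, ?_⟩
  · intro u v
    by_cases h : G.Adj u v ∧ t u < t v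
    · have h' : ¬ (G.Adj v u ∧ t v < t u) := fun h' => by omega
      simp only [cc, dif_pos h, dif_neg h']
    · by_cases h' : G.Adj v u ∧ t v < t u
      · simp only [cc, dif_pos h', dif_neg h]
      · simp only [cc, dif_neg h, dif_neg h']
  · intro u v huv
    have hne' : t u ≠ t v := hR u v huv
    rcases Nat.lt_or_gt_of_ne hne' with h | h
    · have h' : G.Adj u v ∧ t u < t v := ⟨huv, h⟩
      simp only [cc, dif_pos h']
      exact (c _).2
    · have h' : G.Adj v u ∧ t v < t u := ⟨huv.symm, h⟩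
      have h'' : ¬ (G.Adj u v ∧ t u < t v) := fun h' => by omega
      simp only [cc, dif_neg h'', dif_pos h']
      exact (c _).2
  · intro u v v' huv huv' ht hcc
    have hne' : t u ≠ t v := hR u v huv
    rcases Nat.lt_or_gt_of_ne hne' with h | h
    · have a1 : G.Adj u v ∧ t u < t v := ⟨huv, h⟩
      have a2 : G.Adj u v' ∧ t u < t v' := ⟨huv', by omega⟩
      simp only [cc, dif_pos a1, dif_pos a2] at hcc
      have h4 := hc1 ⟨(u, v), a1⟩ ⟨(u, v'), a2⟩ (by simp [sE, ht]) (Fin.ext hcc)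
      have h5 := congrArg (fun e : E => e.1.2) h4
      exact h5
    · have a1 : G.Adj v u ∧ t v < t u := ⟨huv.symm, h⟩
      have a2 : G.Adj v' u ∧ t v' < t u := ⟨huv'.symm, by omega⟩
      have b1 : ¬ (G.Adj u v ∧ t u < t v) := fun h' => by omega
      have b2 : ¬ (G.Adj u v' ∧ t u < t v') := fun h' => by omega
      simp only [cc, dif_neg b1, dif_neg b2, dif_pos a1, dif_pos a2] at hcc
      have h4 := hc2 ⟨(v, u), a1⟩ ⟨(v', u), a2⟩ (by simp [tE, ht]) (Fin.ext hcc)
      have h5 := congrArg (fun e : E => e.1.1) h4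
      exact h5

/-- an odd number of types, at most two neighbours of every type -/
theorem odd_types {V : Type} [Fintype V] (G : SimpleGraph V) (h p : ℕ) (hp : 1 ≤ p) (t : V → ℕ)
    (ht : ∀ v, t v ≤ 2 * h) (hR : ∀ u v, G.Adj u v → t u ≠ t v)
    (hw : ∀ v y, {u | G.Adj v u ∧ t u = y}.ncard ≤ 2) : Lab G p (4 * h + 2 * p) := by
  classical
  rcases Nat.eq_zero_or_pos h with h0 | h0
  · have hno : ∀ u v, ¬ G.Adj u v := by
      intro u v huv
      have := hR u v huv
      have := ht u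
      have := ht v
      omega
    have hpos : 0 < 4 * h + 2 * p := by omega
    exact ⟨fun _ => 0, fun _ => 0, fun _ => hpos, fun _ _ => hpos,
      fun u v huv => (hno u v huv).elim, fun u v _ huv => (hno u v huv).elim,
      fun u v huv => (hno u v huv).elim⟩
  · obtain ⟨v, lab, g1, g2, g3, g4, g5, g6⟩ := good h p h0 hp
    obtain ⟨cc, c1, c2, c3⟩ := pair_cols G t 2 hR hw
    let fE : Sym2 V → ℕ := Sym2.lift ⟨fun x y =>
      if G.Adj x y then lab (t x) (t y) (cc x y) else 0, by
        intro x y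
        by_cases hxy : G.Adj x y
        · simp only [if_pos hxy, if_pos hxy.symm]
          rw [c1 x y]
          exact g4 _ _ _ (ht x) (ht y) (hR x y hxy) (c2 y x hxy.symm)
        · simp only [if_neg hxy, if_neg (fun h' : G.Adj y x => hxy h'.symm)]⟩
    have hfE : ∀ x y, G.Adj x y → fE s(x, y) = lab (t x) (t y) (cc x y) := by
      intro x y hxy
      change (if G.Adj x y then lab (t x) (t y) (cc x y) else 0) = _
      rw [if_pos hxy]
    refine ⟨fun x => v (t x), fE, fun x => g1 _ (ht x), ?_, ?_, ?_, ?_⟩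
    · intro e he
      induction e using Sym2.ind with
      | _ x y =>
        have hxy : G.Adj x y := he
        rw [hfE x y hxy]
        exact g3 _ _ _ (ht x) (ht y) (hR x y hxy) (c2 x y hxy)
    · intro x y hxy he
      exact hR x y hxy (g2 _ _ (ht x) (ht y) he)
    · intro x y z hxy hxz hyz he
      rw [hfE x y hxy, hfE x z hxz] at he
      obtain ⟨e1, e2⟩ := g6 _ _ _ _ _ (ht x) (ht y) (ht z) (hR x y hxy) (hR x z hxz)
        (c2 x y hxy) (c2 x z hxz) he
      exact hyz (c3 x y z hxy hxz e1 e2)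
    · intro x y hxy
      rw [hfE x y hxy]
      change (p : ℤ) ≤ |((v (t x) : ℕ) : ℤ) - ((lab (t x) (t y) (cc x y) : ℕ) : ℤ)|
      rcases g5 _ _ _ (ht x) (ht y) (hR x y hxy) (c2 x y hxy) with h1 | h1
      · rw [abs_of_nonpos (by omega)]
        omega
      · rw [abs_of_nonneg (by omega)]
        omega

/-- an even number of types (starting library) -/
theorem even_types {V : Type} [Fintype V] (G : SimpleGraph V) (m p : ℕ) (hm : 1 ≤ m) (hp : 1 ≤ p)
    (t : V → ℕ) (ht : ∀ v, t v < 2 * m) (hR : ∀ u v, G.Adj u v → t u ≠ t v)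
    (hw : ∀ v y, {u | G.Adj v u ∧ t u = y}.ncard ≤ 2) : Lab G p ((2 * m - 1) * 2 + 2 * p) := by
  obtain ⟨fV, fE, h1, h2, h3, h4, h5⟩ := types G m 2 p 0 (fun _ _ => True) t hp (by omega)
    (fun i _ => Nat.zero_le _) (fun i _ => Nat.zero_le _) (Or.inl le_rfl)
    (fun u v huv => ⟨ht u, ht v, hR u v huv, fun _ _ => trivial, fun _ _ => trivial⟩) hw
  exact ⟨fV, fE, h1, h2, h3, h4, fun u v huv => (h5 u v huv).1⟩

/-- (Copy of a lemma of the starting library `TH702`.) If the edges of `H` are divided into classes such that every vertex is in at most `a` edges of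
the class `j`, then every edge meets at most `2 a` edges of the class `j`. -/
theorem star_count' {U : Type} [Finite U] (H : SimpleGraph U) (cl : H.edgeSet → ℕ) (j a : ℕ)
    (hcl : ∀ x : U, {y | ∃ h : H.Adj x y, cl ⟨s(x, y), h⟩ = j}.ncard ≤ a) (e : H.edgeSet) :
    {e' | H.lineGraph.Adj e e' ∧ cl e' = j}.ncard ≤ 2 * a := by
  classical
  obtain ⟨⟨x, y⟩, hxy⟩ := e
  have key : ∀ z : U, {e' : H.edgeSet | z ∈ (e' : Sym2 U) ∧ cl e' = j}.ncard ≤ a := by
    intro z
    refine le_trans ?_ (hcl z)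
    have hex : ∀ e' : H.edgeSet, ∃ w : U, z ∈ (e' : Sym2 U) → (e' : Sym2 U) = s(z, w) := by
      intro e'
      by_cases h : z ∈ (e' : Sym2 U)
      · obtain ⟨w, hw⟩ := h
        exact ⟨w, fun _ => hw⟩
      · exact ⟨z, fun h' => absurd h' h⟩
    choose g hg using hex
    refine Set.ncard_le_ncard_of_injOn g ?_ ?_ (Set.toFinite _)
    · rintro ⟨e', he'⟩ ⟨h1, h2⟩
      have h3 := hg ⟨e', he'⟩ h1
      have h3' : e' = s(z, g ⟨e', he'⟩) := h3
      have h5 : H.Adj z (g ⟨e', he'⟩) := by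
        have := he'
        rw [h3'] at this
        exact this
      refine ⟨h5, ?_⟩
      rw [← h2]
      congr 1
      exact Subtype.ext h3'.symm
    · rintro e1 ⟨h1, _⟩ e2 ⟨h2, _⟩ h
      apply Subtype.ext
      rw [hg e1 h1, hg e2 h2, h]
  have hsub : {e' | H.lineGraph.Adj ⟨s(x, y), hxy⟩ e' ∧ cl e' = j} ⊆
      {e' : H.edgeSet | x ∈ (e' : Sym2 U) ∧ cl e' = j} ∪
      {e' : H.edgeSet | y ∈ (e' : Sym2 U) ∧ cl e' = j} := by
    rintro e' ⟨h1, h2⟩
    rw [SimpleGraph.lineGraph_adj_iff_exists] at h1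
    obtain ⟨_, z, hz, hz'⟩ := h1
    have hz2 : z ∈ s(x, y) := hz
    rw [Sym2.mem_iff] at hz2
    rcases hz2 with rfl | rfl
    · exact Or.inl ⟨hz', h2⟩
    · exact Or.inr ⟨hz', h2⟩
  have h1 := Set.ncard_le_ncard hsub (Set.toFinite _)
  have h2 := Set.ncard_union_le {e' : H.edgeSet | x ∈ (e' : Sym2 U) ∧ cl e' = j}
    {e' : H.edgeSet | y ∈ (e' : Sym2 U) ∧ cl e' = j}
  have h3 := key x
  have h4 := key y
  change {e' | H.lineGraph.Adj ⟨s(x, y), hxy⟩ e' ∧ cl e' = j}.ncard ≤ 2 * a
  omega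

/-- line graphs -/
theorem line_lab {V : Type} [Fintype V] (H : SimpleGraph V) (D p : ℕ) (hD : 1 ≤ D) (hp : 1 ≤ p)
    (c : Sym2 V → ℕ) (hc : ∀ e ∈ H.edgeSet, c e < D)
    (hprop : ∀ x y z, H.Adj x y → H.Adj x z → y ≠ z → c s(x, y) ≠ c s(x, z)) :
    Lab H.lineGraph p (2 * (D - 1) + 2 * p) := by
  classical
  have hR : ∀ e e' : H.edgeSet, H.lineGraph.Adj e e' → c e ≠ c e' := by
    intro e e' hee' he
    rw [SimpleGraph.lineGraph_adj_iff_exists] at hee'
    obtain ⟨hne, z, ⟨a, ha⟩, ⟨b, hb⟩⟩ := hee'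
    have hza : H.Adj z a := by
      have := e.2
      rw [ha] at this
      exact this
    have hzb : H.Adj z b := by
      have := e'.2
      rw [hb] at this
      exact this
    refine hprop z a b hza hzb ?_ ?_
    · rintro rfl
      exact hne (Subtype.ext (ha.trans hb.symm))
    · rw [← ha, ← hb]
      exact he
  have hw : ∀ (e : H.edgeSet) (j : ℕ), {e' : H.edgeSet | H.lineGraph.Adj e e' ∧ c e' = j}.ncard ≤ 2 := by
    intro e j
    refine star_count' H (fun e => c e) j 1 ?_ e
    intro x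
    rw [Set.ncard_le_one (Set.toFinite _)]
    rintro y ⟨hy, hy'⟩ z ⟨hz, hz'⟩
    by_contra hne
    exact hprop x y z hy hz hne (hy'.trans hz'.symm)
  rcases Nat.even_or_odd' D with ⟨m, hm | hm⟩
  · have := even_types H.lineGraph m p (by omega) hp (fun e => c e)
      (fun e => by have := hc e e.2; omega) hR hw
    have e1 : (2 * m - 1) * 2 + 2 * p = 2 * (D - 1) + 2 * p := by omega
    rwa [e1] at this
  · have := odd_types H.lineGraph m p hp (fun e => c e)
      (fun e => by have := hc e e.2; omega) hR hw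
    have e1 : 4 * m + 2 * p = 2 * (D - 1) + 2 * p := by omega
    rwa [e1] at this

theorem line_degree_at {U : Type} [Finite U] (H : SimpleGraph U) {x y : U} (hxy' : H.Adj x y) :
    (H.lineGraph.neighborSet ⟨s(x, y), hxy'⟩).ncard =
      ((H.neighborSet x).ncard - 1) + ((H.neighborSet y).ncard - 1) := by
  classical
  have hne : x ≠ y := hxy'.ne
  have h1 : H.lineGraph.neighborSet ⟨s(x, y), hxy'⟩ =
      (fun e' : H.edgeSet => (e' : Sym2 U)) ⁻¹'
        ((fun z => s(x, z)) '' (H.neighborSet x \ {y}) ∪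
          (fun z => s(y, z)) '' (H.neighborSet y \ {x})) := by
    ext e'
    rw [SimpleGraph.mem_neighborSet, SimpleGraph.lineGraph_adj_iff_exists, Set.mem_preimage]
    constructor
    · rintro ⟨hne', z, hz, hz'⟩
      have hz2 : z ∈ s(x, y) := hz
      rw [Sym2.mem_iff] at hz2
      obtain ⟨w, hw⟩ := hz'
      have hadj : H.Adj z w := by
        have := e'.2
        rw [hw] at this
        exact this
      rcases hz2 with rfl | rfl
      · left
        refine ⟨w, ⟨hadj, ?_⟩, hw.symm⟩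
        intro h
        rw [Set.mem_singleton_iff] at h
        subst h
        exact hne' (Subtype.ext hw.symm)
      · right
        refine ⟨w, ⟨hadj, ?_⟩, hw.symm⟩
        intro h
        rw [Set.mem_singleton_iff] at h
        subst h
        exact hne' (Subtype.ext (by rw [hw]; exact Sym2.eq_swap))
    · rintro (⟨w, ⟨hw, hw'⟩, he⟩ | ⟨w, ⟨hw, hw'⟩, he⟩)
      · refine ⟨?_, x, ?_, ?_⟩
        · intro h
          have h2 : s(x, y) = s(x, w) :=
            (congrArg Subtype.val h).trans he.symm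
          rw [Sym2.eq_iff] at h2
          rcases h2 with ⟨_, h2⟩ | ⟨h2, h3⟩
          · exact hw' h2.symm
          · exact hne h3.symm
        · exact Sym2.mem_mk_left x y
        · rw [← he]; exact Sym2.mem_mk_left x w
      · refine ⟨?_, y, ?_, ?_⟩
        · intro h
          have h2 : s(x, y) = s(y, w) :=
            (congrArg Subtype.val h).trans he.symm
          rw [Sym2.eq_iff] at h2
          rcases h2 with ⟨h2, _⟩ | ⟨h2, h3⟩
          · exact hne h2
          · exact hw' h2.symm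
        · exact Sym2.mem_mk_right x y
        · rw [← he]; exact Sym2.mem_mk_left y w
  rw [h1, Set.ncard_preimage_of_injective_subset_range Subtype.val_injective]
  · rw [Set.ncard_union_eq]
    · rw [Set.ncard_image_of_injective, Set.ncard_image_of_injective,
        Set.ncard_sdiff_singleton_of_mem (show y ∈ H.neighborSet x from hxy'),
        Set.ncard_sdiff_singleton_of_mem (show x ∈ H.neighborSet y from hxy'.symm)]
      · intro a b hab
        have hab' : s(y, a) = s(y, b) := hab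
        exact Sym2.congr_right.1 hab'
      · intro a b hab
        have hab' : s(x, a) = s(x, b) := hab
        exact Sym2.congr_right.1 hab'
    · rw [Set.disjoint_left]
      rintro _ ⟨a, ⟨ha, ha'⟩, rfl⟩ ⟨b, ⟨hb, hb'⟩, h⟩
      have h2 : s(y, b) = s(x, a) := h
      rw [Sym2.eq_iff] at h2
      rcases h2 with ⟨h2, _⟩ | ⟨h2, h3⟩
      · exact hne h2.symm
      · exact ha' h2.symm
  · rintro _ (⟨a, ⟨ha, _⟩, rfl⟩ | ⟨a, ⟨ha, _⟩, rfl⟩)
    · exact ⟨⟨s(x, a), ha⟩, rfl⟩
    · exact ⟨⟨s(y, a), ha⟩, rfl⟩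

/-- `Δ` is the maximum degree of `G`. -/
def HasMaxDegree {V : Type} (G : SimpleGraph V) (Δ : ℕ) : Prop :=
  (∀ v, (G.neighborSet v).ncard ≤ Δ) ∧ ∃ v, (G.neighborSet v).ncard = Δ

/-- the prism over `H`, edges -/
theorem prism_cols {V : Type} [Fintype V] (H : SimpleGraph V) (D : ℕ)
    (hdeg : ∀ v, (H.neighborSet v).ncard ≤ D) :
    ∃ c : Sym2 (V × Bool) → ℕ, (∀ e ∈ (H.boxProd (⊤ : SimpleGraph Bool)).edgeSet, c e < D + 1) ∧
      ∀ x y z, (H.boxProd (⊤ : SimpleGraph Bool)).Adj x y →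
        (H.boxProd (⊤ : SimpleGraph Bool)).Adj x z → y ≠ z → c s(x, y) ≠ c s(x, z) := by
  classical
  obtain ⟨c, c1, c2, c3⟩ := Pool.Agent.H238R2.HY.vizing H D (by
    intro v
    have := hdeg v
    rwa [Set.ncard_eq_toFinset_card', ← SimpleGraph.neighborFinset_def,
      SimpleGraph.card_neighborFinset_eq_degree] at this)
  have hmiss : ∀ x, ∃ m, m ≤ D ∧ ∀ y, H.Adj x y → c x y ≠ m := by
    intro x
    by_contra hcon
    push Not at hcon
    have h1 : (Finset.range (D + 1)) ⊆ (H.neighborFinset x).image (c x) := by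
      intro m hm
      rw [mem_range] at hm
      obtain ⟨y, hy, hy'⟩ := hcon m (by omega)
      exact mem_image.2 ⟨y, (H.mem_neighborFinset x y).2 hy, hy'⟩
    have h2 := (card_le_card h1).trans card_image_le
    rw [card_range] at h2
    have h3 := hdeg x
    rw [Set.ncard_eq_toFinset_card', ← SimpleGraph.neighborFinset_def] at h3
    omega
  choose ms ms1 ms2 using hmiss
  let f : Sym2 (V × Bool) → ℕ := Sym2.lift ⟨fun a b => if a.1 = b.1 then ms a.1 else c a.1 b.1, by
    intro a b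
    by_cases h : a.1 = b.1
    · simp only [if_pos h, if_pos h.symm, h]
    · simp only [if_neg h, if_neg (fun h' : b.1 = a.1 => h h'.symm)]
      exact c1 _ _⟩
  have hf : ∀ a b, f s(a, b) = if a.1 = b.1 then ms a.1 else c a.1 b.1 := fun a b => rfl
  have hfH : ∀ a b : V × Bool, H.Adj a.1 b.1 → f s(a, b) = c a.1 b.1 := by
    intro a b h
    rw [hf, if_neg h.ne]
  refine ⟨f, ?_, ?_⟩
  · intro e he
    induction e using Sym2.ind with
    | _ a b =>
      have hab : (H.boxProd (⊤ : SimpleGraph Bool)).Adj a b := he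
      rw [SimpleGraph.boxProd_adj] at hab
      rcases hab with ⟨h1, _⟩ | ⟨_, h2⟩
      · rw [hfH a b h1]
        exact Nat.lt_succ_of_le (c2 _ _ h1)
      · rw [hf, if_pos h2]
        exact Nat.lt_succ_of_le (ms1 _)
  · intro x y z hxy hxz hyz
    rw [SimpleGraph.boxProd_adj] at hxy hxz
    rcases hxy with ⟨h1, h2⟩ | ⟨h1, h2⟩ <;> rcases hxz with ⟨h3, h4⟩ | ⟨h3, h4⟩
    · rw [hfH x y h1, hfH x z h3]
      refine c3 _ _ _ h1 h3 (fun h5 => hyz (Prod.ext h5 (h2.symm.trans h4)))
    · rw [hfH x y h1, hf, if_pos h4]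
      exact ms2 _ _ h1
    · rw [hfH x z h3, hf, if_pos h2]
      exact (ms2 _ _ h3).symm
    · exfalso
      rw [SimpleGraph.top_adj] at h1 h3
      refine hyz (Prod.ext (h2.symm.trans h4) ?_)
      rcases hx : x.2 with _ | _ <;> rcases hy : y.2 with _ | _ <;> rcases hz : z.2 with _ | _ <;>
        simp_all

theorem prism_degree {V : Type} [Finite V] (H : SimpleGraph V) (x : V) (i : Bool) :
    ((H.boxProd (⊤ : SimpleGraph Bool)).neighborSet (x, i)).ncard =
      (H.neighborSet x).ncard + 1 := by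
  classical
  have h1 : (H.boxProd (⊤ : SimpleGraph Bool)).neighborSet (x, i) =
      insert (x, !i) ((fun y => (y, i)) '' (H.neighborSet x)) := by
    ext ⟨y, j⟩
    rw [SimpleGraph.mem_neighborSet, SimpleGraph.boxProd_adj, Set.mem_insert_iff, Set.mem_image]
    constructor
    · rintro (⟨h1, h2⟩ | ⟨h1, h2⟩)
      · right
        exact ⟨y, h1, Prod.ext rfl h2⟩
      · left
        rw [SimpleGraph.top_adj] at h1
        change i ≠ j at h1
        change x = y at h2
        rw [h2]
        cases i <;> cases j <;> simp_all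
    · rintro (h1 | ⟨z, hz, h1⟩)
      · right
        rw [Prod.mk.injEq] at h1
        rw [SimpleGraph.top_adj]
        refine ⟨?_, h1.1.symm⟩
        change i ≠ j
        rw [h1.2]
        cases i <;> simp
      · left
        rw [Prod.mk.injEq] at h1
        rw [← h1.1, ← h1.2]
        exact ⟨hz, rfl⟩
  rw [h1, Set.ncard_insert_of_notMem, Set.ncard_image_of_injective]
  · intro a b hab
    exact (Prod.mk.injEq _ _ _ _ ▸ hab : a = b ∧ i = i).1
  · rintro ⟨z, _, hz⟩
    rw [Prod.mk.injEq] at hz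
    have := hz.2
    cases i <;> simp_all

theorem line_maxdeg {U : Type} [Finite U] (H : SimpleGraph U) (D : ℕ)
    (hdeg : ∀ v, (H.neighborSet v).ncard ≤ D) {x y : U} (hxy : H.Adj x y)
    (hx : (H.neighborSet x).ncard = D) (hy : (H.neighborSet y).ncard = D) :
    HasMaxDegree H.lineGraph (2 * (D - 1)) := by
  refine ⟨?_, ⟨s(x, y), hxy⟩, ?_⟩
  · rintro ⟨⟨a, b⟩, hab⟩
    have h1 := line_degree_at H (x := a) (y := b) hab
    have h2 := hdeg a
    have h3 := hdeg b
    have h4 : (H.lineGraph.neighborSet ⟨s(a, b), hab⟩).ncard ≤ 2 * (D - 1) := by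
      rw [h1]
      omega
    exact h4
  · rw [line_degree_at H hxy, hx, hy]
    omega

end Pool.Agent.N411.HYO
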