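import Pool.Agent.N411.HYO.Graph

set_option autoImplicit false
set_option linter.unusedVariables false

/-! Labellings of the `w`-fold complete graph on `2 K` types, `K` even, with
`w (2 K - 1) + 2 p - s` labels, where `s < K` and `K + s ≤ p`.

The first copy gets the labels `i + j + p` modulo `2 K + 2 p - 1`; the labels of the types are at
both ends.  The other copies are coloured by a 1-factorization in which the first `K - 1` classes join
types of the same half; `s` of these classes get labels at the ends. -/

namespace Pool.Agent.N411.HYO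

def posL (K p S x : ℕ) : ℕ :=
  if x < K then x + K + 2 * p - 1 + S else if x < 2 * K + p then x - K else x - K + S

def cycL (K p i j : ℕ) : ℕ :=
  if i + j + p < 2 * K + 2 * p - 1 then i + j + p else i + j + p - (2 * K + 2 * p - 1)

/-- twice `j` modulo `K - 1` -/
def dbl (K j : ℕ) : ℕ := if 2 * j < K - 1 then 2 * j else 2 * j - (K - 1)

/-- a 1-factorization of the complete graph on `K` points, `K` even -/
def kap (K i j : ℕ) : ℕ :=
  if i = K - 1 then dbl K j else if j = K - 1 then dbl K i else
    if i + j < K - 1 then i + j else i + j - (K - 1)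

theorem kap_symm {K i j : ℕ} (hij : i ≠ j) : kap K i j = kap K j i := by
  unfold kap
  split_ifs <;> omega

theorem kap_lt {K i j : ℕ} (hK : K % 2 = 0) (hK2 : 2 ≤ K) (hi : i < K) (hj : j < K)
    (hij : i ≠ j) : kap K i j < K - 1 := by
  unfold kap dbl
  split_ifs <;> omega

theorem kap_inj {K i j k : ℕ} (hK : K % 2 = 0) (hK2 : 2 ≤ K) (hi : i < K) (hj : j < K)
    (hk : k < K) (hij : i ≠ j) (hik : i ≠ k) (he : kap K i j = kap K i k) : j = k := by
  unfold kap dbl at he
  split_ifs at he <;> omega

/-- the classes of a 1-factorization of the complete graph on `2 K` types -/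
def idx (K i j : ℕ) : ℕ :=
  if i < K then
    if j < K then kap K i j else
      K - 1 + (if i + (j - K) < K then i + (j - K) else i + (j - K) - K)
  else if K ≤ j then kap K (i - K) (j - K) else
      K - 1 + (if j + (i - K) < K then j + (i - K) else j + (i - K) - K)

theorem idx_ll {K i j : ℕ} (hi : i < K) (hj : j < K) : idx K i j = kap K i j := by
  unfold idx
  rw [if_pos hi, if_pos hj]

theorem idx_rr {K i j : ℕ} (hi : K ≤ i) (hj : K ≤ j) : idx K i j = kap K (i - K) (j - K) := by
  unfold idx
  rw [if_neg (by omega), if_pos hj]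

theorem idx_lr {K i j : ℕ} (hi : i < K) (hj : K ≤ j) : idx K i j =
    K - 1 + (if i + (j - K) < K then i + (j - K) else i + (j - K) - K) := by
  unfold idx
  rw [if_pos hi, if_neg (by omega)]

theorem idx_rl {K i j : ℕ} (hi : K ≤ i) (hj : j < K) : idx K i j =
    K - 1 + (if j + (i - K) < K then j + (i - K) else j + (i - K) - K) := by
  unfold idx
  rw [if_neg (by omega), if_neg (by omega)]

theorem idx_symm {K i j : ℕ} (hij : i ≠ j) : idx K i j = idx K j i := by
  rcases Nat.lt_or_ge i K with hi | hi <;> rcases Nat.lt_or_ge j K with hj | hj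
  · rw [idx_ll hi hj, idx_ll hj hi, kap_symm hij]
  · rw [idx_lr hi hj, idx_rl hj hi]
  · rw [idx_rl hi hj, idx_lr hj hi]
  · rw [idx_rr hi hj, idx_rr hj hi, kap_symm (by omega)]

theorem idx_lt {K i j : ℕ} (hK : K % 2 = 0) (hK2 : 2 ≤ K) (hi : i < 2 * K) (hj : j < 2 * K)
    (hij : i ≠ j) : idx K i j < 2 * K - 1 := by
  rcases Nat.lt_or_ge i K with hi' | hi' <;> rcases Nat.lt_or_ge j K with hj' | hj'
  · rw [idx_ll hi' hj']
    have := kap_lt hK hK2 hi' hj' hij
    omega
  · rw [idx_lr hi' hj']
    split_ifs <;> omega
  · rw [idx_rl hi' hj']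
    split_ifs <;> omega
  · rw [idx_rr hi' hj']
    have := kap_lt hK hK2 (show i - K < K by omega) (show j - K < K by omega) (by omega)
    omega

/-- a class with a small number joins types of the same half -/
theorem idx_side {K i j : ℕ} (hK2 : 2 ≤ K) (hi : i < 2 * K) (hj : j < 2 * K)
    (h : idx K i j < K - 1) : (i < K ↔ j < K) := by
  rcases Nat.lt_or_ge i K with hi' | hi' <;> rcases Nat.lt_or_ge j K with hj' | hj'
  · exact ⟨fun _ => hj', fun _ => hi'⟩
  · rw [idx_lr hi' hj'] at h
    omega
  · rw [idx_rl hi' hj'] at h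
    omega
  · constructor <;> intro h' <;> omega

theorem idx_inj {K i j k : ℕ} (hK : K % 2 = 0) (hK2 : 2 ≤ K) (hi : i < 2 * K) (hj : j < 2 * K)
    (hk : k < 2 * K) (hij : i ≠ j) (hik : i ≠ k) (he : idx K i j = idx K i k) : j = k := by
  rcases Nat.lt_or_ge i K with hi' | hi'
  · rcases Nat.lt_or_ge j K with hj' | hj' <;> rcases Nat.lt_or_ge k K with hk' | hk'
    · rw [idx_ll hi' hj', idx_ll hi' hk'] at he
      exact kap_inj hK hK2 hi' hj' hk' hij hik he
    · rw [idx_ll hi' hj', idx_lr hi' hk'] at he
      have := kap_lt hK hK2 hi' hj' hij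
      omega
    · rw [idx_lr hi' hj', idx_ll hi' hk'] at he
      have := kap_lt hK hK2 hi' hk' hik
      omega
    · rw [idx_lr hi' hj', idx_lr hi' hk'] at he
      split_ifs at he <;> omega
  · rcases Nat.lt_or_ge j K with hj' | hj' <;> rcases Nat.lt_or_ge k K with hk' | hk'
    · rw [idx_rl hi' hj', idx_rl hi' hk'] at he
      split_ifs at he <;> omega
    · rw [idx_rl hi' hj', idx_rr hi' hk'] at he
      have := kap_lt hK hK2 (show i - K < K by omega) (show k - K < K by omega) (by omega)
      omega
    · rw [idx_rr hi' hj', idx_rl hi' hk'] at he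
      have := kap_lt hK hK2 (show i - K < K by omega) (show j - K < K by omega) (by omega)
      omega
    · rw [idx_rr hi' hj', idx_rr hi' hk'] at he
      have := kap_inj hK hK2 (show i - K < K by omega) (show j - K < K by omega)
        (show k - K < K by omega) (by omega) (by omega) he
      omega

theorem goodL (K p s w : ℕ) (hK : K % 2 = 0) (hK2 : 2 ≤ K) (hs : s < K) (hp : K + s ≤ p)
    (hw : 2 ≤ w) : ∃ (v : ℕ → ℕ) (lab : ℕ → ℕ → ℕ → ℕ),
    (∀ i, i < 2 * K → v i < w * (2 * K - 1) + 2 * p - s) ∧
    (∀ i j, i < 2 * K → j < 2 * K → v i = v j → i = j) ∧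
    (∀ i j t, i < 2 * K → j < 2 * K → i ≠ j → t < w →
      lab i j t < w * (2 * K - 1) + 2 * p - s) ∧
    (∀ i j t, i < 2 * K → j < 2 * K → i ≠ j → t < w → lab i j t = lab j i t) ∧
    (∀ i j t, i < 2 * K → j < 2 * K → i ≠ j → t < w →
      v i + p ≤ lab i j t ∨ lab i j t + p ≤ v i) ∧
    (∀ i j k t t', i < 2 * K → j < 2 * K → k < 2 * K → i ≠ j → i ≠ k → t < w → t' < w →
      lab i j t = lab i k t' → j = k ∧ t = t') := by
  obtain ⟨w', rfl⟩ : ∃ w', w = w' + 2 := ⟨w - 2, by omega⟩
  obtain ⟨R, hR⟩ : ∃ R, R = w' * (2 * K - 1) := ⟨_, rfl⟩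
  have hN : (w' + 2) * (2 * K - 1) + 2 * p - s = 2 * (2 * K - 1) + R + 2 * p - s := by
    rw [hR]
    ring_nf
  rw [hN]
  obtain ⟨N, hN'⟩ : ∃ N, N = 2 * (2 * K - 1) + R + 2 * p - s := ⟨_, rfl⟩
  rw [← hN']
  obtain ⟨S, hS⟩ : ∃ S, S = (2 * K - 1 - s) + R := ⟨_, rfl⟩
  -- the labels in the further copies
  have hX : ∀ t a, t < w' + 2 → 2 ≤ t → a < 2 * K - 1 → (t - 2) * (2 * K - 1) + a < R := by
    intro t a h1 h2 h3
    rw [hR]
    have : (t - 2 + 1) * (2 * K - 1) ≤ w' * (2 * K - 1) := Nat.mul_le_mul_right _ (by omega)
    have e : (t - 2 + 1) * (2 * K - 1) = (t - 2) * (2 * K - 1) + (2 * K - 1) := by ring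
    omega
  have hXinj : ∀ t t' a a', 2 ≤ t → 2 ≤ t' → a < 2 * K - 1 → a' < 2 * K - 1 →
      (t - 2) * (2 * K - 1) + a = (t' - 2) * (2 * K - 1) + a' → t = t' ∧ a = a' := by
    intro t t' a a' h1 h2 h3 h4 h5
    rcases Nat.lt_trichotomy (t - 2) (t' - 2) with h6 | h6 | h6
    · have := Nat.mul_le_mul_right (2 * K - 1) (show t - 2 + 1 ≤ t' - 2 by omega)
      have e : (t - 2 + 1) * (2 * K - 1) = (t - 2) * (2 * K - 1) + (2 * K - 1) := by ring
      omega
    · rw [h6] at h5
      omega
    · have := Nat.mul_le_mul_right (2 * K - 1) (show t' - 2 + 1 ≤ t - 2 by omega)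
      have e : (t' - 2 + 1) * (2 * K - 1) = (t' - 2) * (2 * K - 1) + (2 * K - 1) := by ring
      omega
  let v : ℕ → ℕ := fun i => if i < K then N - K + i else i - K
  have hv : ∀ i, v i = if i < K then N - K + i else i - K := fun i => rfl
  let lab : ℕ → ℕ → ℕ → ℕ := fun i j t =>
    if t = 0 then posL K p S (cycL K p i j) else if t = 1 then
      (if idx K i j < s then (if i < K then idx K i j else N - 1 - idx K i j)
        else K + p + (idx K i j - s))
      else K + p + (2 * K - 1 - s) + ((t - 2) * (2 * K - 1) + idx K i j)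
  have l0 : ∀ i j, lab i j 0 = posL K p S (cycL K p i j) := fun i j => by simp [lab]
  have l1 : ∀ i j, lab i j 1 =
      if idx K i j < s then (if i < K then idx K i j else N - 1 - idx K i j)
        else K + p + (idx K i j - s) := fun i j => by simp [lab]
  have l2 : ∀ i j t, 2 ≤ t → lab i j t =
      K + p + (2 * K - 1 - s) + ((t - 2) * (2 * K - 1) + idx K i j) := by
    intro i j t ht
    simp only [lab]
    rw [if_neg (by omega), if_neg (by omega)]
  -- the labels of the first copy are outside of the middle range
  have q0 : ∀ x, x < 2 * K + 2 * p - 1 → posL K p S x < K + p ∨ K + p + S ≤ posL K p S x := by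
    intro x hx
    unfold posL
    split_ifs <;> omega
  have q1 : ∀ x, x < 2 * K + 2 * p - 1 → posL K p S x < N := by
    intro x hx
    unfold posL
    split_ifs <;> omega
  have qc : ∀ i j, i < 2 * K → j < 2 * K → i ≠ j → cycL K p i j < 2 * K + 2 * p - 1 := by
    intro i j hi hj hij
    unfold cycL
    split_ifs <;> omega
  have qinj : ∀ i j k, i < 2 * K → j < 2 * K → k < 2 * K → i ≠ j → i ≠ k →
      posL K p S (cycL K p i j) = posL K p S (cycL K p i k) → j = k := by
    intro i j k hi hj hk hij hik he
    unfold posL cycL at he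
    split_ifs at he <;> omega
  have qd : ∀ i j, i < 2 * K → j < 2 * K → i ≠ j →
      v i + p ≤ posL K p S (cycL K p i j) ∨ posL K p S (cycL K p i j) + p ≤ v i := by
    intro i j hi hj hij
    rw [hv]
    unfold posL cycL
    split_ifs <;> omega
  -- the moved labels are not used by the first copy
  have qm : ∀ i k a, i < 2 * K → k < 2 * K → i ≠ k → a < s →
      posL K p S (cycL K p i k) ≠ (if i < K then a else N - 1 - a) := by
    intro i k a hi hk hik ha
    unfold posL cycL
    split_ifs <;> omega
  -- classification of the labels of the second copy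
  have r1 : ∀ i j, i < 2 * K → j < 2 * K → i ≠ j →
      (idx K i j < s ∧ lab i j 1 = (if i < K then idx K i j else N - 1 - idx K i j)) ∨
      (s ≤ idx K i j ∧ lab i j 1 = K + p + (idx K i j - s)) := by
    intro i j hi hj hij
    rcases Nat.lt_or_ge (idx K i j) s with h1 | h1
    · left
      refine ⟨h1, ?_⟩
      rw [l1, if_pos h1]
    · right
      refine ⟨h1, ?_⟩
      rw [l1, if_neg (by omega)]
  refine ⟨v, lab, ?_, ?_, ?_, ?_, ?_, ?_⟩
  · intro i hi
    rw [hv]
    split_ifs <;> omega
  · intro i j hi hj he
    rw [hv, hv] at he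
    split_ifs at he <;> omega
  · intro i j t hi hj hij ht
    have hlt := idx_lt hK hK2 hi hj hij
    rcases Nat.lt_or_ge t 2 with h1 | h1
    · rcases Nat.lt_or_ge t 1 with h0 | h0
      · have : t = 0 := by omega
        subst this
        rw [l0]
        exact q1 _ (qc i j hi hj hij)
      · have : t = 1 := by omega
        subst this
        rcases r1 i j hi hj hij with ⟨h2, h3⟩ | ⟨h2, h3⟩
        · rw [h3]
          split_ifs <;> omega
        · rw [h3]
          omega
    · rw [l2 i j t h1]
      have := hX t _ ht h1 hlt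
      omega
  · intro i j t hi hj hij ht
    rcases Nat.lt_or_ge t 2 with h1 | h1
    · rcases Nat.lt_or_ge t 1 with h0 | h0
      · have : t = 0 := by omega
        subst this
        rw [l0, l0]
        unfold cycL
        rw [Nat.add_comm i j]
      · have : t = 1 := by omega
        subst this
        rw [l1, l1, idx_symm hij]
        by_cases h2 : idx K j i < s
        · have h3 := idx_side hK2 hj hi (show idx K j i < K - 1 by omega)
          by_cases h4 : i < K
          · simp only [if_pos h2, if_pos h4, if_pos (h3.2 h4)]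
          · simp only [if_pos h2, if_neg h4, if_neg (fun h5 => h4 (h3.1 h5))]
        · simp only [if_neg h2]
    · rw [l2 i j t h1, l2 j i t h1, idx_symm hij]
  · intro i j t hi hj hij ht
    have hlt := idx_lt hK hK2 hi hj hij
    rcases Nat.lt_or_ge t 2 with h1 | h1
    · rcases Nat.lt_or_ge t 1 with h0 | h0
      · have : t = 0 := by omega
        subst this
        rw [l0]
        exact qd i j hi hj hij
      · have : t = 1 := by omega
        subst this
        rcases r1 i j hi hj hij with ⟨h2, h3⟩ | ⟨h2, h3⟩
        · rw [h3, hv]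
          split_ifs <;> omega
        · rw [h3, hv]
          split_ifs <;> omega
    · rw [l2 i j t h1, hv]
      have := hX t _ ht h1 hlt
      split_ifs <;> omega
  · intro i j k t t' hi hj hk hij hik ht ht' he
    have hlt := idx_lt hK hK2 hi hj hij
    have hlt' := idx_lt hK hK2 hi hk hik
    have c1 := qc i j hi hj hij
    have c2 := qc i k hi hk hik
    rcases Nat.lt_or_ge t 2 with h1 | h1
    · rcases Nat.lt_or_ge t 1 with h0 | h0
      · have e0 : t = 0 := by omega
        subst e0
        rw [l0] at he
        rcases Nat.lt_or_ge t' 2 with h1' | h1'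
        · rcases Nat.lt_or_ge t' 1 with h0' | h0'
          · have e1 : t' = 0 := by omega
            subst e1
            rw [l0] at he
            exact ⟨qinj i j k hi hj hk hij hik he, rfl⟩
          · have e1 : t' = 1 := by omega
            subst e1
            exfalso
            rcases r1 i k hi hk hik with ⟨h2, h3⟩ | ⟨h2, h3⟩
            · rw [h3] at he
              exact qm i j _ hi hj hij h2 he
            · rw [h3] at he
              have := q0 _ c1
              omega
        · exfalso
          rw [l2 i k t' h1'] at he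
          have := q0 _ c1
          have := hX t' _ ht' h1' hlt'
          omega
      · have e0 : t = 1 := by omega
        subst e0
        rcases Nat.lt_or_ge t' 2 with h1' | h1'
        · rcases Nat.lt_or_ge t' 1 with h0' | h0'
          · have e1 : t' = 0 := by omega
            subst e1
            exfalso
            rw [l0] at he
            rcases r1 i j hi hj hij with ⟨h2, h3⟩ | ⟨h2, h3⟩
            · rw [h3] at he
              exact qm i k _ hi hk hik h2 he.symm
            · rw [h3] at he
              have := q0 _ c2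
              omega
          · have e1 : t' = 1 := by omega
            subst e1
            refine ⟨idx_inj hK hK2 hi hj hk hij hik ?_, rfl⟩
            rcases r1 i j hi hj hij with ⟨h2, h3⟩ | ⟨h2, h3⟩ <;>
              rcases r1 i k hi hk hik with ⟨h4, h5⟩ | ⟨h4, h5⟩ <;> rw [h3, h5] at he <;>
              first | omega | (split_ifs at he <;> omega)
        · exfalso
          rw [l2 i k t' h1'] at he
          have := hX t' _ ht' h1' hlt'
          rcases r1 i j hi hj hij with ⟨h2, h3⟩ | ⟨h2, h3⟩
          · rw [h3] at he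
            split_ifs at he <;> omega
          · rw [h3] at he
            omega
    · rw [l2 i j t h1] at he
      have hx1 := hX t _ ht h1 hlt
      rcases Nat.lt_or_ge t' 2 with h1' | h1'
      · exfalso
        rcases Nat.lt_or_ge t' 1 with h0' | h0'
        · have e1 : t' = 0 := by omega
          subst e1
          rw [l0] at he
          have := q0 _ c2
          omega
        · have e1 : t' = 1 := by omega
          subst e1
          rcases r1 i k hi hk hik with ⟨h2, h3⟩ | ⟨h2, h3⟩
          · rw [h3] at he
            split_ifs at he <;> omega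
          · rw [h3] at he
            omega
      · rw [l2 i k t' h1'] at he
        obtain ⟨e1, e2⟩ := hXinj t t' _ _ h1 h1' hlt hlt' (by omega)
        exact ⟨idx_inj hK hK2 hi hj hk hij hik e2, e1⟩

end Pool.Agent.N411.HYO
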