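import Pool.Agent.N411.HYO.Large

set_option autoImplicit false

/-! Labellings of graphs from `goodL`; line graphs for large `p`. -/

namespace Pool.Agent.N411.HYO

open Finset Pool.Agent.R661.HY

/-- `2 K` types, `K` even, at most `w` neighbours of every type, `w (2 K - 1) + 2 p - s` labels -/
theorem large_types {V : Type} [Fintype V] (G : SimpleGraph V) (K p s w : ℕ) (hK : K % 2 = 0)
    (hK2 : 2 ≤ K) (hs : s < K) (hp : K + s ≤ p) (hw2 : 2 ≤ w) (t : V → ℕ)
    (ht : ∀ v, t v < 2 * K) (hR : ∀ u v, G.Adj u v → t u ≠ t v)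
    (hw : ∀ v y, {u | G.Adj v u ∧ t u = y}.ncard ≤ w) :
    Lab G p (w * (2 * K - 1) + 2 * p - s) := by
  classical
  obtain ⟨v, lab, g1, g2, g3, g4, g5, g6⟩ := goodL K p s w hK hK2 hs hp hw2
  obtain ⟨cc, c1, c2, c3⟩ := pair_cols G t w hR hw
  let fE : Sym2 V → ℕ := Sym2.lift ⟨fun x y =>
    if G.Adj x y then lab (t x) (t y) (cc x y) else 0, by
      intro x y
      by_cases hxy : G.Adj x y
      · simp only [if_pos hxy, if_pos hxy.symm]
        rw [c1 x y]
        exact g4 _ _ _ (ht x) (ht y) (hR x y hxy) (c2 y x hxy.symm)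
      · simp only [if_neg hxy, if_neg (fun h' : G.Adj y x => hxy h'.symm)]⟩
  have hfE : ∀ x y, G.Adj x y → fE s(x, y) = lab (t x) (t y) (cc x y) := by
    intro x y hxy
    change (if G.Adj x y then lab (t x) (t y) (cc x y) else 0) = _
    rw [if_pos hxy]
  refine ⟨fun x => v (t x), fE, fun x => g1 _ (ht x), ?_, ?_, ?_, ?_⟩
  · intro e he
    induction e using Sym2.ind with
    | _ x y =>
      have hxy : G.Adj x y := he
      rw [hfE x y hxy]
      exact g3 _ _ _ (ht x) (ht y) (hR x y hxy) (c2 x y hxy)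
  · intro x y hxy he
    exact hR x y hxy (g2 _ _ (ht x) (ht y) he)
  · intro x y z hxy hxz hyz he
    rw [hfE x y hxy, hfE x z hxz] at he
    obtain ⟨e1, e2⟩ := g6 _ _ _ _ _ (ht x) (ht y) (ht z) (hR x y hxy) (hR x z hxz)
      (c2 x y hxy) (c2 x z hxz) he
    exact hyz (c3 x y z hxy hxz e1 e2)
  · intro x y hxy
    rw [hfE x y hxy]
    change (p : ℤ) ≤ |((v (t x) : ℕ) : ℤ) - ((lab (t x) (t y) (cc x y) : ℕ) : ℤ)|
    rcases g5 _ _ _ (ht x) (ht y) (hR x y hxy) (c2 x y hxy) with h1 | h1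
    · rw [abs_of_nonpos (by omega)]
      omega
    · rw [abs_of_nonneg (by omega)]
      omega

/-- the simple bound: first the labels of the vertices, then the labels of the edges -/
theorem simple_bound {V : Type} (G : SimpleGraph V) (a b p : ℕ)
    (t : V → ℕ) (ht : ∀ v, t v < a) (hR : ∀ u v, G.Adj u v → t u ≠ t v)
    (c : V → V → ℕ) (c1 : ∀ u v, c u v = c v u) (c2 : ∀ u v, G.Adj u v → c u v < b)
    (c3 : ∀ u v v', G.Adj u v → G.Adj u v' → v ≠ v' → c u v ≠ c u v') (hN : 1 < a + b + p) :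
    Lab G p (a + b + p - 1) := by
  classical
  let fE : Sym2 V → ℕ := Sym2.lift ⟨fun x y =>
    if G.Adj x y then a + p - 1 + c x y else 0, by
      intro x y
      by_cases hxy : G.Adj x y
      · simp only [if_pos hxy, if_pos hxy.symm]
        rw [c1 x y]
      · simp only [if_neg hxy, if_neg (fun h' : G.Adj y x => hxy h'.symm)]⟩
  have hfE : ∀ x y, G.Adj x y → fE s(x, y) = a + p - 1 + c x y := by
    intro x y hxy
    change (if G.Adj x y then a + p - 1 + c x y else 0) = _
    rw [if_pos hxy]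
  by_cases hedge : ∃ x y, G.Adj x y
  · obtain ⟨x0, y0, hxy0⟩ := hedge
    have hb := c2 x0 y0 hxy0
    have ha := ht x0
    refine ⟨t, fE, ?_, ?_, hR, ?_, ?_⟩
    · intro v
      have := ht v
      omega
    · intro e he
      induction e using Sym2.ind with
      | _ x y =>
        have hxy : G.Adj x y := he
        rw [hfE x y hxy]
        have := c2 x y hxy
        omega
    · intro x y z hxy hxz hyz he
      rw [hfE x y hxy, hfE x z hxz] at he
      exact c3 x y z hxy hxz hyz (by omega)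
    · intro x y hxy
      rw [hfE x y hxy]
      have := ht x
      rw [abs_of_nonpos (by omega)]
      omega
  · push Not at hedge
    have hNp : 0 < a + b + p - 1 := by omega
    exact ⟨fun _ => 0, fun _ => 0, fun _ => hNp, fun _ _ => hNp,
      fun u v huv => (hedge u v huv).elim, fun u v _ huv => (hedge u v huv).elim,
      fun u v huv => (hedge u v huv).elim⟩

theorem Lab.mono {V : Type} {G : SimpleGraph V} {p N N' : ℕ} (h : Lab G p N) (hN : N ≤ N') :
    Lab G p N' := by
  obtain ⟨fV, fE, h1, h2, h3, h4, h5⟩ := h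
  exact ⟨fV, fE, fun v => (h1 v).trans_le hN, fun e he => (h2 e he).trans_le hN, h3, h4, h5⟩

/-- a proper edge colouring of `H` as a typing of the line graph -/
theorem line_types {V : Type} [Fintype V] (H : SimpleGraph V) (c : Sym2 V → ℕ)
    (hprop : ∀ x y z, H.Adj x y → H.Adj x z → y ≠ z → c s(x, y) ≠ c s(x, z)) :
    (∀ e e' : H.edgeSet, H.lineGraph.Adj e e' → c e ≠ c e') ∧
    ∀ (e : H.edgeSet) (j : ℕ), {e' : H.edgeSet | H.lineGraph.Adj e e' ∧ c e' = j}.ncard ≤ 2 := by
  classical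
  refine ⟨?_, ?_⟩
  · intro e e' hee' he
    rw [SimpleGraph.lineGraph_adj_iff_exists] at hee'
    obtain ⟨hne, z, ⟨a, ha⟩, ⟨b, hb⟩⟩ := hee'
    have hza : H.Adj z a := by
      have := e.2
      rw [ha] at this
      exact this
    have hzb : H.Adj z b := by
      have := e'.2
      rw [hb] at this
      exact this
    refine hprop z a b hza hzb ?_ ?_
    · rintro rfl
      exact hne (Subtype.ext (ha.trans hb.symm))
    · rw [← ha, ← hb]
      exact he
  · intro e j
    refine star_count' H (fun e => c e) j 1 ?_ e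
    intro x
    rw [Set.ncard_le_one (Set.toFinite _)]
    rintro y ⟨hy, hy'⟩ z ⟨hz, hz'⟩
    by_contra hne
    exact hprop x y z hy hz hne (hy'.trans hz'.symm)

/-- Vizing's theorem with a colouring of `Sym2 V` -/
theorem vizing_sym {V : Type} [Fintype V] (H : SimpleGraph V) (D : ℕ)
    (hdeg : ∀ v, (H.neighborSet v).ncard ≤ D) :
    ∃ c : Sym2 V → ℕ, (∀ e ∈ H.edgeSet, c e < D + 1) ∧
      ∀ x y z, H.Adj x y → H.Adj x z → y ≠ z → c s(x, y) ≠ c s(x, z) := by
  classical
  obtain ⟨c, c1, c2, c3⟩ := Pool.Agent.H238R2.HY.vizing H D (by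
    intro v
    have := hdeg v
    rwa [Set.ncard_eq_toFinset_card', ← SimpleGraph.neighborFinset_def,
      SimpleGraph.card_neighborFinset_eq_degree] at this)
  refine ⟨Sym2.lift ⟨fun x y => c x y, c1⟩, ?_, ?_⟩
  · intro e he
    induction e using Sym2.ind with
    | _ x y => exact Nat.lt_succ_of_le (c2 x y he)
  · intro x y z hxy hxz hyz
    exact c3 x y z hxy hxz hyz

/-- line graphs, large `p` -/
theorem line_large {V : Type} [Fintype V] (H : SimpleGraph V) (D Δ p : ℕ)
    (hdeg : ∀ v, (H.neighborSet v).ncard ≤ D) (hΔ : HasMaxDegree H.lineGraph Δ)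
    (hp : 5 * D + 16 ≤ 2 * p + 2 * Δ) : Lab H.lineGraph p (Δ + 2 * p) := by
  classical
  obtain ⟨hΔ1, ⟨e0, he0⟩, hΔ2⟩ := hΔ
  have hb : 1 ≤ D ∧ Δ ≤ 2 * (D - 1) := by
    induction e0 using Sym2.ind with
    | _ x y =>
      have hxy : H.Adj x y := he0
      have h1 := line_degree_at H hxy
      have h2 := hdeg x
      have h3 := hdeg y
      have h4 : 1 ≤ (H.neighborSet x).ncard := by
        rw [Nat.one_le_iff_ne_zero, ← Nat.pos_iff_ne_zero, Set.ncard_pos (Set.toFinite _)]
        exact ⟨y, hxy⟩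
      have h5 : (H.lineGraph.neighborSet ⟨s(x, y), hxy⟩).ncard = Δ := hΔ2
      omega
  obtain ⟨c, c1, c2⟩ := vizing_sym H D hdeg
  obtain ⟨t1, t2⟩ := line_types H c c2
  obtain ⟨K, hK⟩ : ∃ K, K = 2 * ((D + 4) / 4) := ⟨_, rfl⟩
  obtain ⟨s, hs⟩ : ∃ s, s = 2 * (2 * K - 1) - Δ := ⟨_, rfl⟩
  by_cases hsK : s < K
  · have h1 := large_types H.lineGraph K p s 2 (by omega) (by omega) hsK (by omega) le_rfl
      (fun e => c e) (fun e => by have := c1 e e.2; omega) t1 t2
    exact h1.mono (by omega)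
  · -- the simple bound
    have hpD : D + 1 ≤ p := by omega
    obtain ⟨d, d1, d2, d3⟩ := Pool.Agent.H238R2.HY.vizing H.lineGraph Δ (by
      intro v
      have := hΔ1 v
      rwa [Set.ncard_eq_toFinset_card', ← SimpleGraph.neighborFinset_def,
        SimpleGraph.card_neighborFinset_eq_degree] at this)
    have h1 := simple_bound H.lineGraph (D + 1) (Δ + 1) p (fun e => c e)
      (fun e => c1 e e.2) t1 d d1 (fun u v huv => Nat.lt_succ_of_le (d2 u v huv)) d3 (by omega)
    exact h1.mono (by omega)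

end Pool.Agent.N411.HYO
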