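import Mathlib

set_option autoImplicit false

/-! Labellings of the doubled complete graph on `2 h + 1` types with `4 h + 2 p` labels.

The first copy of the complete graph gets the labels `i + j + p` modulo `2 h + 2 p` (the type `i` has
the label `i`), the second copy gets `2 h` further labels; `h` edges of the second copy must be
moved to the labels of the first copy.  The circle of the labels is cut at `c`, inside the block of
the labels of the types, and the new labels are put opposite to this block. -/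

namespace Pool.Agent.N411.HYO

/-- the place of the label `x` of the circle, cut at `c` -/
def pos (h p c x : ℕ) : ℕ :=
  if x < c then x + (4 * h + 2 * p) - c else if x ≤ 2 * h + p then x - c else x + 2 * h - c

/-- the label of the first copy of the edge `i j` -/
def cyc (h p i j : ℕ) : ℕ :=
  if i + j + p < 2 * h + 2 * p then i + j + p else i + j + p - (2 * h + 2 * p)

/-- the labels of types and of pairs of types -/
def Good (h p : ℕ) : Prop :=
  ∃ (v : ℕ → ℕ) (lab : ℕ → ℕ → ℕ → ℕ),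
    (∀ i, i ≤ 2 * h → v i < 4 * h + 2 * p) ∧
    (∀ i j, i ≤ 2 * h → j ≤ 2 * h → v i = v j → i = j) ∧
    (∀ i j s, i ≤ 2 * h → j ≤ 2 * h → i ≠ j → s < 2 → lab i j s < 4 * h + 2 * p) ∧
    (∀ i j s, i ≤ 2 * h → j ≤ 2 * h → i ≠ j → s < 2 → lab i j s = lab j i s) ∧
    (∀ i j s, i ≤ 2 * h → j ≤ 2 * h → i ≠ j → s < 2 →
      v i + p ≤ lab i j s ∨ lab i j s + p ≤ v i) ∧
    (∀ i j k s s', i ≤ 2 * h → j ≤ 2 * h → k ≤ 2 * h → i ≠ j → i ≠ k → s < 2 → s' < 2 →
      lab i j s = lab i k s' → j = k ∧ s = s')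

theorem pos_inj {h p c x y : ℕ} (hc : c ≤ 2 * h + 1) (hp : 1 ≤ p) (hx : x < 2 * h + 2 * p)
    (hy : y < 2 * h + 2 * p) (he : pos h p c x = pos h p c y) : x = y := by
  unfold pos at he
  split_ifs at he <;> omega

theorem pos_ne_new {h p c x s : ℕ} (hc : c ≤ 2 * h + 1) (hp : 1 ≤ p) (hx : x < 2 * h + 2 * p)
    (hs : s < 2 * h) : pos h p c x ≠ 2 * h + p - c + 1 + s := by
  unfold pos
  split_ifs <;> omega

theorem cyc_lt {h p i j : ℕ} (hi : i ≤ 2 * h) (hj : j ≤ 2 * h) (hp : 1 ≤ p) (hij : i ≠ j) :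
    cyc h p i j < 2 * h + 2 * p := by
  unfold cyc
  split_ifs <;> omega

theorem cyc_symm (h p i j : ℕ) : cyc h p i j = cyc h p j i := by
  unfold cyc
  rw [Nat.add_comm i j]

theorem cyc_inj {h p i j k : ℕ} (hi : i ≤ 2 * h) (hj : j ≤ 2 * h) (hk : k ≤ 2 * h) (hp : 1 ≤ p)
    (he : cyc h p i j = cyc h p i k) : j = k := by
  unfold cyc at he
  split_ifs at he <;> omega

theorem pos_lt {h p c x : ℕ} (hc : c ≤ 2 * h + 1) (hp : 1 ≤ p) (hx : x < 2 * h + 2 * p) :
    pos h p c x < 4 * h + 2 * p := by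
  unfold pos
  split_ifs <;> omega

theorem cyc_dist {h p c i j : ℕ} (hc : c ≤ 2 * h + 1) (hp : 1 ≤ p) (hi : i ≤ 2 * h)
    (hj : j ≤ 2 * h) (hij : i ≠ j) :
    pos h p c i + p ≤ pos h p c (cyc h p i j) ∨ pos h p c (cyc h p i j) + p ≤ pos h p c i := by
  unfold pos cyc
  split_ifs <;> omega

theorem new_dist {h p c i s : ℕ} (hc : c ≤ 2 * h + 1) (hp : 1 ≤ p) (hi : i ≤ 2 * h)
    (hs : s < 2 * h) :
    pos h p c i + p ≤ 2 * h + p - c + 1 + s ∨ 2 * h + p - c + 1 + s + p ≤ pos h p c i := by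
  unfold pos
  split_ifs <;> omega

/-- the label `x` of the circle is free at the type `i` -/
def Free (h p c i x : ℕ) : Prop :=
  x < 2 * h + 2 * p ∧ (pos h p c i + p ≤ pos h p c x ∨ pos h p c x + p ≤ pos h p c i) ∧
    ∀ k, k ≤ 2 * h → k ≠ i → cyc h p i k ≠ x

theorem assemble (h p c : ℕ) (hp : 1 ≤ p) (hc : c ≤ 2 * h + 1) (F : ℕ → ℕ → Prop)
    (lam phi : ℕ → ℕ → ℕ) (Fs : ∀ i j, F i j → F j i)
    (ls : ∀ i j, i ≤ 2 * h → j ≤ 2 * h → i ≠ j → F i j → lam i j = lam j i)
    (ps : ∀ i j, phi i j = phi j i)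
    (f1 : ∀ i j, i ≤ 2 * h → j ≤ 2 * h → i ≠ j → F i j → Free h p c i (lam i j))
    (f2 : ∀ i j k, i ≤ 2 * h → j ≤ 2 * h → k ≤ 2 * h → i ≠ j → i ≠ k → F i j → F i k →
      lam i j = lam i k → j = k)
    (p1 : ∀ i j, i ≤ 2 * h → j ≤ 2 * h → i ≠ j → ¬ F i j → phi i j < 2 * h)
    (p2 : ∀ i j k, i ≤ 2 * h → j ≤ 2 * h → k ≤ 2 * h → i ≠ j → i ≠ k → ¬ F i j → ¬ F i k →
      phi i j = phi i k → j = k) : Good h p := by
  classical
  let lab : ℕ → ℕ → ℕ → ℕ := fun i j s =>
    if s = 0 then pos h p c (cyc h p i j) else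
      if F i j then pos h p c (lam i j) else 2 * h + p - c + 1 + phi i j
  have l0 : ∀ i j, lab i j 0 = pos h p c (cyc h p i j) := fun i j => by simp [lab]
  have l1 : ∀ i j, F i j → lab i j 1 = pos h p c (lam i j) := fun i j hF => by simp [lab, hF]
  have l2 : ∀ i j, ¬ F i j → lab i j 1 = 2 * h + p - c + 1 + phi i j :=
    fun i j hF => by simp [lab, hF]
  refine ⟨fun i => pos h p c i, lab, ?_, ?_, ?_, ?_, ?_, ?_⟩
  · intro i hi
    exact pos_lt hc hp (by omega)
  · intro i j hi hj he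
    exact pos_inj hc hp (by omega) (by omega) he
  · intro i j s hi hj hij hs
    rcases Nat.lt_or_ge s 1 with h0 | h0
    · have : s = 0 := by omega
      subst this
      rw [l0]
      exact pos_lt hc hp (cyc_lt hi hj hp hij)
    · have : s = 1 := by omega
      subst this
      by_cases hF : F i j
      · rw [l1 i j hF]
        exact pos_lt hc hp (f1 i j hi hj hij hF).1
      · rw [l2 i j hF]
        have := p1 i j hi hj hij hF
        omega
  · intro i j s hi hj hij hs
    rcases Nat.lt_or_ge s 1 with h0 | h0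
    · have : s = 0 := by omega
      subst this
      rw [l0, l0, cyc_symm]
    · have : s = 1 := by omega
      subst this
      by_cases hF : F i j
      · rw [l1 i j hF, l1 j i (Fs i j hF), ls i j hi hj hij hF]
      · rw [l2 i j hF, l2 j i (fun h' => hF (Fs j i h')), ps]
  · intro i j s hi hj hij hs
    rcases Nat.lt_or_ge s 1 with h0 | h0
    · have : s = 0 := by omega
      subst this
      rw [l0]
      exact cyc_dist hc hp hi hj hij
    · have : s = 1 := by omega
      subst this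
      by_cases hF : F i j
      · rw [l1 i j hF]
        exact (f1 i j hi hj hij hF).2.1
      · rw [l2 i j hF]
        exact new_dist hc hp hi (p1 i j hi hj hij hF)
  · intro i j k s s' hi hj hk hij hik hs hs' he
    rcases Nat.lt_or_ge s 1 with h0 | h0
    · have e0 : s = 0 := by omega
      subst e0
      rw [l0] at he
      rcases Nat.lt_or_ge s' 1 with h0' | h0'
      · have e1 : s' = 0 := by omega
        subst e1
        rw [l0] at he
        have := pos_inj hc hp (cyc_lt hi hj hp hij) (cyc_lt hi hk hp hik) he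
        exact ⟨cyc_inj hi hj hk hp this, rfl⟩
      · have e1 : s' = 1 := by omega
        subst e1
        exfalso
        by_cases hF : F i k
        · rw [l1 i k hF] at he
          have hfr := f1 i k hi hk hik hF
          have := pos_inj hc hp (cyc_lt hi hj hp hij) hfr.1 he
          exact hfr.2.2 j hj (Ne.symm hij) this
        · rw [l2 i k hF] at he
          exact pos_ne_new hc hp (cyc_lt hi hj hp hij) (p1 i k hi hk hik hF) he
    · have e0 : s = 1 := by omega
      subst e0
      rcases Nat.lt_or_ge s' 1 with h0' | h0'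
      · have e1 : s' = 0 := by omega
        subst e1
        rw [l0] at he
        exfalso
        by_cases hF : F i j
        · rw [l1 i j hF] at he
          have hfr := f1 i j hi hj hij hF
          have := pos_inj hc hp hfr.1 (cyc_lt hi hk hp hik) he
          exact hfr.2.2 k hk (Ne.symm hik) this.symm
        · rw [l2 i j hF] at he
          exact pos_ne_new hc hp (cyc_lt hi hk hp hik) (p1 i j hi hj hij hF) he.symm
      · have e1 : s' = 1 := by omega
        subst e1
        refine ⟨?_, rfl⟩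
        by_cases hF : F i j
        · rw [l1 i j hF] at he
          by_cases hF' : F i k
          · rw [l1 i k hF'] at he
            have := pos_inj hc hp (f1 i j hi hj hij hF).1 (f1 i k hi hk hik hF').1 he
            exact f2 i j k hi hj hk hij hik hF hF' this
          · rw [l2 i k hF'] at he
            exact absurd he (pos_ne_new hc hp (f1 i j hi hj hij hF).1 (p1 i k hi hk hik hF'))
        · rw [l2 i j hF] at he
          by_cases hF' : F i k
          · rw [l1 i k hF'] at he
            exact absurd he.symm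
              (pos_ne_new hc hp (f1 i k hi hk hik hF').1 (p1 i j hi hj hij hF))
          · rw [l2 i k hF'] at he
            exact p2 i j k hi hj hk hij hik hF hF' (by omega)

/-- sums modulo `2 h + 1` -/
def red (h : ℕ) (s : ℤ) : ℕ := (if s < 0 then s + (2 * h + 1) else s).toNat

/-- the second copy, if the moved edges are a matching missing one type: they join the types with
opposite values of `e` -/
theorem near_perfect (h p c : ℕ) (hp : 1 ≤ p) (hc : c ≤ 2 * h + 1) (e : ℕ → ℤ)
    (he : ∀ i, i ≤ 2 * h → -(h : ℤ) ≤ e i ∧ e i ≤ h)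
    (hinj : ∀ i j, i ≤ 2 * h → j ≤ 2 * h → e i = e j → i = j) (lam : ℕ → ℕ → ℕ)
    (ls : ∀ i j, i ≤ 2 * h → j ≤ 2 * h → i ≠ j → e i + e j = 0 → lam i j = lam j i)
    (f1 : ∀ i j, i ≤ 2 * h → j ≤ 2 * h → i ≠ j → e i + e j = 0 → Free h p c i (lam i j)) :
    Good h p := by
  refine assemble h p c hp hc (fun i j => e i + e j = 0) lam (fun i j => red h (e i + e j) - 1)
    (fun i j h' => by omega) ls (fun i j => by rw [add_comm]) f1 ?_ ?_ ?_
  · intro i j k hi hj hk hij hik h1 h2 _
    exact hinj j k hj hk (by omega)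
  · intro i j hi hj hij h1
    have a1 := he i hi
    have a2 := he j hj
    unfold red
    split_ifs <;> omega
  · intro i j k hi hj hk hij hik h1 h2 h3
    have a1 := he i hi
    have a2 := he j hj
    have a3 := he k hk
    refine hinj j k hj hk ?_
    unfold red at h3
    split_ifs at h3 <;> omega

/-- the second copy, if the moved edges contain a path of length two -/
theorem path_case (h p c : ℕ) (hp : 1 ≤ p) (hc : c ≤ 2 * h + 1) (hh : 1 ≤ h) (e : ℕ → ℤ)
    (he : ∀ i, i ≤ 2 * h → -(h : ℤ) ≤ e i ∧ e i ≤ h)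
    (hinj : ∀ i j, i ≤ 2 * h → j ≤ 2 * h → e i = e j → i = j) (lam : ℕ → ℕ → ℕ)
    (x y w : ℕ) (hx : e x = -h) (hy : e y = h) (hw : e w = 1 - h)
    (hx2 : x ≤ 2 * h) (hy2 : y ≤ 2 * h) (hw2 : w ≤ 2 * h)
    (ls : ∀ i j, i ≤ 2 * h → j ≤ 2 * h → i ≠ j → e i + e j = 0 → i ≠ x → j ≠ x →
      lam i j = lam j i)
    (lyw : lam y w = lam w y) (f0 : Free h p c y (lam y w)) (f0' : Free h p c w (lam y w))
    (f1 : ∀ i j, i ≤ 2 * h → j ≤ 2 * h → i ≠ j → e i + e j = 0 → i ≠ x → j ≠ x →
      Free h p c i (lam i j))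
    (f3 : ∀ j, j ≤ 2 * h → j ≠ y → e w + e j = 0 → lam w j ≠ lam w y) :
    Good h p := by
  have hxy : x ≠ y := by
    intro h1
    rw [h1] at hx
    omega
  have hxw : x ≠ w := by
    intro h1
    rw [h1] at hx
    omega
  have hyx : ∀ i j, i ≤ 2 * h → j ≤ 2 * h → e i + e j = 0 → i = x → j = y := by
    intro i j hi hj h1 h2
    subst h2
    exact hinj j y hj hy2 (by omega)
  refine assemble h p c hp hc
    (fun i j => (e i + e j = 0 ∧ i ≠ x ∧ j ≠ x) ∨ (i = y ∧ j = w) ∨ (i = w ∧ j = y)) lam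
    (fun i j => if (i = x ∧ j = y) ∨ (i = y ∧ j = x) then 0 else red h (e i + e j) - 1)
    ?_ ?_ ?_ ?_ ?_ ?_ ?_
  · rintro i j (⟨h1, h2, h3⟩ | ⟨h1, h2⟩ | ⟨h1, h2⟩)
    · exact Or.inl ⟨by omega, h3, h2⟩
    · exact Or.inr (Or.inr ⟨h2, h1⟩)
    · exact Or.inr (Or.inl ⟨h2, h1⟩)
  · rintro i j hi hj hij (⟨h1, h2, h3⟩ | ⟨h1, h2⟩ | ⟨h1, h2⟩)
    · exact ls i j hi hj hij h1 h2 h3
    · rw [h1, h2, lyw]
    · rw [h1, h2, lyw]
  · intro i j
    by_cases h1 : (i = x ∧ j = y) ∨ (i = y ∧ j = x)
    · have h2 : (j = x ∧ i = y) ∨ (j = y ∧ i = x) := by tauto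
      rw [if_pos h1, if_pos h2]
    · have h2 : ¬ ((j = x ∧ i = y) ∨ (j = y ∧ i = x)) := by tauto
      rw [if_neg h1, if_neg h2, add_comm]
  · rintro i j hi hj hij (⟨h1, h2, h3⟩ | ⟨h1, h2⟩ | ⟨h1, h2⟩)
    · exact f1 i j hi hj hij h1 h2 h3
    · rw [h1, h2]
      exact f0
    · rw [h1, h2, ← lyw]
      exact f0'
  · rintro i j k hi hj hk hij hik (⟨h1, h2, h3⟩ | ⟨h1, h2⟩ | ⟨h1, h2⟩)
      (⟨h4, h5, h6⟩ | ⟨h4, h5⟩ | ⟨h4, h5⟩) h7
    · exact hinj j k hj hk (by omega)
    · -- `i = y`, `k = w`, so `j = x`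
      exfalso
      subst h4
      exact h3 (hinj j x hj hx2 (by omega))
    · subst h4
      subst h5
      by_contra hne
      exact f3 j hj hne h1 h7
    · exfalso
      subst h1
      exact h6 (hinj k x hk hx2 (by omega))
    · rw [h2, h5]
    · exfalso
      rw [h1] at h4
      rw [h4] at hy
      omega
    · subst h1
      subst h2
      by_contra hne
      exact f3 k hk (Ne.symm hne) h4 h7.symm
    · exfalso
      rw [h1] at h4
      rw [← h4] at hy
      omega
    · rw [h2, h5]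
  · intro i j hi hj hij h1
    have a1 := he i hi
    have a2 := he j hj
    by_cases h2 : (i = x ∧ j = y) ∨ (i = y ∧ j = x)
    · rw [if_pos h2]
      omega
    · rw [if_neg h2]
      have h3 : e i + e j ≠ 0 := by
        intro h3
        by_cases h4 : i = x
        · exact h2 (Or.inl ⟨h4, hyx i j hi hj h3 h4⟩)
        · by_cases h5 : j = x
          · exact h2 (Or.inr ⟨hyx j i hj hi (by omega) h5, h5⟩)
          · exact h1 (Or.inl ⟨h3, h4, h5⟩)
      unfold red
      split_ifs <;> omega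
  · intro i j k hi hj hk hij hik h1 h2 h3
    have a1 := he i hi
    have a2 := he j hj
    have a3 := he k hk
    have nz : ∀ j, j ≤ 2 * h → i ≠ j →
        ¬ ((e i + e j = 0 ∧ i ≠ x ∧ j ≠ x) ∨ (i = y ∧ j = w) ∨ (i = w ∧ j = y)) →
        ¬ ((i = x ∧ j = y) ∨ (i = y ∧ j = x)) → e i + e j ≠ 0 := by
      intro j hj hij h1 h2 h3
      by_cases h4 : i = x
      · exact h2 (Or.inl ⟨h4, hyx i j hi hj h3 h4⟩)
      · by_cases h5 : j = x
        · exact h2 (Or.inr ⟨hyx j i hj hi (by omega) h5, h5⟩)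
        · exact h1 (Or.inl ⟨h3, h4, h5⟩)
    have key : ∀ k, k ≤ 2 * h → i ≠ k →
        ¬ ((e i + e k = 0 ∧ i ≠ x ∧ k ≠ x) ∨ (i = y ∧ k = w) ∨ (i = w ∧ k = y)) →
        ¬ ((i = x ∧ k = y) ∨ (i = y ∧ k = x)) → (i = x ∨ i = y) → red h (e i + e k) - 1 ≠ 0 := by
      intro k hk hik h1 h2 h4 h5
      have b1 := nz k hk hik h1 h2
      have b2 := he k hk
      rcases h4 with h4 | h4
      · rw [h4, hx] at h5 b1
        have : k = x := hinj k x hk hx2 (by
          unfold red at h5
          split_ifs at h5 <;> omega)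
        exact hik (h4.trans this.symm)
      · rw [h4, hy] at h5 b1
        have : k = w := hinj k w hk hw2 (by
          unfold red at h5
          split_ifs at h5 <;> omega)
        exact h1 (Or.inr (Or.inl ⟨h4, this⟩))
    by_cases h4 : (i = x ∧ j = y) ∨ (i = y ∧ j = x)
    · by_cases h5 : (i = x ∧ k = y) ∨ (i = y ∧ k = x)
      · rcases h4 with h4 | h4 <;> rcases h5 with h5 | h5
        · rw [h4.2, h5.2]
        · exact absurd (h4.1.symm.trans h5.1) hxy
        · exact absurd (h5.1.symm.trans h4.1) hxy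
        · rw [h4.2, h5.2]
      · rw [if_pos h4, if_neg h5] at h3
        exact absurd h3.symm (key k hk hik h2 h5 (by tauto))
    · by_cases h5 : (i = x ∧ k = y) ∨ (i = y ∧ k = x)
      · rw [if_neg h4, if_pos h5] at h3
        exact absurd h3 (key j hj hij h1 h4 (by tauto))
      · rw [if_neg h4, if_neg h5] at h3
        have b1 := nz j hj hij h1 h4
        have b2 := nz k hk hik h2 h5
        refine hinj j k hj hk ?_
        unfold red at h3
        split_ifs at h3 <;> omega

end Pool.Agent.N411.HYO
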